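import Pool.Agent.Helper38.IA.StN

/-!
# Project IA, part N, module NMF of helper38: mean of a weighted count
-/

set_option autoImplicit false

namespace Pool.Agent.Helper33.IA38

open Finset Pool.Agent.Helper93.IA Pool.Agent.Helper17.IAN Pool.Agent.Helper38.IA

private theorem mean_eq {α β γ I : Type} [Fintype α] [Fintype β] [Fintype γ] [Fintype I]
    [DecidableEq α] [DecidableEq β] [DecidableEq γ] (x : α → β → γ → ℝ)
    (E : I → (α × β → Option γ) → Prop) (g : I → ℝ) :
    Ex (wt x) (Fv E g) = ∑ i, g i * Pr x (E i) := by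
  classical
  unfold Pr Ex Fv
  simp only [Finset.mul_sum]
  rw [Finset.sum_comm]
  refine Finset.sum_congr rfl fun i _ => Finset.sum_congr rfl fun σ _ => ?_
  by_cases h : E i σ
  · simp only [h, if_true]
    ring
  · simp only [h, if_false, mul_zero]

theorem hNMF : StNMF := by
  intro α β γ I _ _ _ _ _ _ _ x E g m κ hg hE
  rw [mean_eq, Finset.mul_sum, ← Finset.sum_sub_distrib, Finset.mul_sum]
  refine (Finset.abs_sum_le_sum_abs _ _).trans (Finset.sum_le_sum fun i _ => ?_)
  by_cases hi : g i = 0
  · rw [hi]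
    simp
  · have h1 : g i * Pr x (E i) - m * g i = g i * (Pr x (E i) - m) := by ring
    rw [h1, abs_mul, abs_of_nonneg (hg i), mul_comm κ (g i)]
    exact mul_le_mul_of_nonneg_left (hE i hi) (hg i)

end Pool.Agent.Helper33.IA38
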