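import Pool.Agent.Helper38.IA.St

/-!
# Project IA, module T0 of helper38: translation facts for the adjacency matrix of a tripartite graph
-/

set_option autoImplicit false

namespace Pool.Agent.Helper33.IA38

open Finset Pool.Agent.Helper93.IA Pool.Agent.Helper38.IA

private theorem split_pos {ι : Type} [Fintype ι] (P : ι → Prop) [DecidablePred P] (t r : ℝ)
    (q : ι → ℝ) :
    ∑ i, (if P i then t + r * q i else 0)
      = t * ∑ i, (if P i then (1 : ℝ) else 0) + r * ∑ i, (if P i then (1 : ℝ) else 0) * q i := by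
  rw [Finset.mul_sum, Finset.mul_sum, ← Finset.sum_add_distrib]
  refine Finset.sum_congr rfl fun i _ => ?_
  split_ifs <;> ring

private theorem neg_swap {ι : Type} [Fintype ι] (P : ι → Prop) [DecidablePred P] (x : ℝ)
    (q : ι → ℝ) :
    ∑ i, (if P i then (1 : ℝ) else 0) * (q i - x)
      = - ∑ i, (if P i then (1 : ℝ) else 0) * (x - q i) := by
  rw [← Finset.sum_neg_distrib]
  refine Finset.sum_congr rfl fun i _ => ?_
  ring

theorem hT0 : StT0 := by
  intro α β γ _ _ _ _ _ _ A B C
  refine ⟨?_, ?_, ?_, ?_, ?_, ?_, ?_⟩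
  · rintro (a | b | c) (a' | b' | c') <;> simp [Wt]
  · rintro (a | b | c) (a' | b' | c') <;> simp only [Wt, Sum.elim_inl, Sum.elim_inr] <;>
      (first | (split_ifs <;> constructor <;> norm_num) | (constructor <;> norm_num))
  · rintro (a | b | c) <;> simp [Wt]
  · intro a
    simp only [Fintype.sum_sum_type, Wt, Sum.elim_inl, Sum.elim_inr, Finset.sum_const_zero,
      zero_add, d1_eq_sum, d2_eq_sum]
  · intro b
    simp only [Fintype.sum_sum_type, Wt, Sum.elim_inl, Sum.elim_inr, Finset.sum_const_zero,
      zero_add, d1_eq_sum, d2_eq_sum]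
    ring
  · intro c
    simp only [Fintype.sum_sum_type, Wt, Sum.elim_inl, Sum.elim_inr, Finset.sum_const_zero,
      add_zero, d1_eq_sum, d2_eq_sum]
  · intro p t r
    refine ⟨?_, ?_, ?_⟩
    · intro a
      simp only [Lap, Fintype.sum_sum_type, Wt, Sum.elim_inl, Sum.elim_inr, zero_mul,
        Finset.sum_const_zero, zero_add, d1_eq_sum, d2_eq_sum]
      rw [split_pos, split_pos, neg_swap (fun c => (c, a) ∈ C)]
      ring
    · intro b
      simp only [Lap, Fintype.sum_sum_type, Wt, Sum.elim_inl, Sum.elim_inr, zero_mul,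
        Finset.sum_const_zero, zero_add, d1_eq_sum, d2_eq_sum]
      rw [split_pos, split_pos, neg_swap (fun a => (a, b) ∈ A)]
      ring
    · intro c
      simp only [Lap, Fintype.sum_sum_type, Wt, Sum.elim_inl, Sum.elim_inr, zero_mul,
        Finset.sum_const_zero, add_zero, d1_eq_sum, d2_eq_sum]
      rw [split_pos, split_pos, neg_swap (fun b => (b, c) ∈ B)]
      ring

end Pool.Agent.Helper33.IA38
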